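import Pool.Agent.H505R3.Asym8

/-!
# Rough values of `n ^ 2 + 1` at the multiples of a given number

`(N ^ 2 + 1) ((2 N ^ 2) ^ 2 + 1) = (2 N ^ 3 + N) ^ 2 + 1` with `N = 8 q m`; after
`Pool.Agent.H505R3.main8` (the case `q = 1`).
-/

set_option autoImplicit false

namespace Pool.Agent.U803.ER

open Finset Filter Pool.Agent.H505R2 Pool.Agent.H505R3

lemma D8_iff {p n : ℕ} : D8 p n ↔ D8 p (n % p) := by
  constructor
  · exact D8_mod
  · intro h
    rcases h with h | h | h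
    · exact Or.inl ((quad_mod p _ _ _ n).1 h)
    · exact Or.inr (Or.inl ((quad_mod p _ _ _ n).1 h))
    · exact Or.inr (Or.inr ((quad_mod p _ _ _ n).1 h))

/-- the excluded classes for `m`, `N = 8 q m` -/
def Dq (q p m : ℕ) : Prop := D8 p (q * m)

instance (q p : ℕ) : DecidablePred (Dq q p) := fun n => by unfold Dq; infer_instance

lemma Dq_mod {q p n : ℕ} (h : Dq q p n) : Dq q p (n % p) := by
  unfold Dq at *
  rw [D8_iff] at h ⊢
  rwa [Nat.mul_mod, Nat.mod_mod, ← Nat.mul_mod]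

lemma Dq_card {q p : ℕ} (hp : p.Prime) :
    ((range p).filter (Dq q p)).card ≤ ((range p).filter (D8 p)).card := by
  by_cases hq : p ∣ q
  · have h0 : (range p).filter (Dq q p) = ∅ := by
      apply filter_eq_empty_iff.2
      intro m _ h
      unfold Dq at h
      rw [D8_iff, Nat.mod_eq_zero_of_dvd (hq.mul_right m)] at h
      have h1 : ¬ (p : ℤ) ∣ 1 := by
        intro h
        have h2 : p ∣ 1 := by exact_mod_cast h
        exact hp.one_lt.ne' (Nat.dvd_one.1 h2)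
      rcases h with h | h | h
      · apply h1; simpa using h
      · apply h1; simpa using h
      · apply h1; simpa using h
    rw [h0]
    simp
  · apply card_le_card_of_injOn (fun m => (q * m) % p)
    · intro m hm
      rw [mem_coe, mem_filter, mem_range] at hm
      rw [mem_coe, mem_filter, mem_range]
      exact ⟨Nat.mod_lt _ hp.pos, D8_iff.1 hm.2⟩
    · intro a ha b hb hab
      rw [mem_coe, mem_filter, mem_range] at ha hb
      have h1 : q * a ≡ q * b [MOD p] := hab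
      have h2 : a ≡ b [MOD p] :=
        Nat.ModEq.cancel_left_of_coprime ((Nat.Prime.coprime_iff_not_dvd hp).2 hq) h1
      rw [Nat.ModEq, Nat.mod_eq_of_lt ha.1, Nat.mod_eq_of_lt hb.1] at h2
      exact h2

theorem siftq (q I : ℕ) (hI : 1 ≤ I) (k : ℕ) :
    (k : ℝ) * (Real.exp (-96) ^ I / 2) - (2 : ℝ) ^ (1292 * 2 ^ I)
      ≤ (((Ioc 0 k).filter (fun n => ∀ p ∈ S1 I, ¬ Dq q p n)).card : ℝ) := by
  have h := sift_gen 3 (by norm_num) (S1 I) (fun p hp => (mem_S1.1 hp).2.2.1) (Dq q)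
    (fun p _ n h => Dq_mod h) (by
      intro p hp
      obtain ⟨h5, -, hpp, h4⟩ := mem_S1.1 hp
      have hle := Dq_card (q := q) hpp
      by_cases hp5 : p = 5
      · subst hp5
        have := D8_card5
        omega
      · have h13 : 13 ≤ p := by
          by_contra hcon
          have h9 : p = 9 := by omega
          subst h9
          revert hpp
          norm_num
        have := D8_card hpp h5
        omega) (by
      intro p hp
      obtain ⟨h5, -, hpp, h4⟩ := mem_S1.1 hp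
      have hle := Dq_card (q := q) hpp
      have := D8_card hpp h5
      omega) I hI (fun p hp => (mem_S1.1 hp).2.1) k
  have e : (-(32 * ((3 : ℕ) : ℝ))) = -96 := by norm_num
  rw [e] at h
  exact h

/-- finite version: one of three values has the property -/
theorem countq (q : ℕ) (hq : 1 ≤ q) (E : ℕ → Prop)
    (hE : ∀ a b : ℕ, a ≠ 0 → b ≠ 0 → ¬ E a → ¬ E b → E (a * b)) (I : ℕ)
    (hI : 1 ≤ I) (k X : ℕ) (hX : 1032 * (q * k) ^ 3 ≤ X) :
    (k : ℝ) * (Real.exp (-96) ^ I / 2) - (2 : ℝ) ^ (1292 * 2 ^ I) ≤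
      3 * (({n : ℕ | n ≤ X ∧ 0 < n ∧ 8 * q ∣ n ∧ Rough (2 ^ 2 ^ I) (n ^ 2 + 1) ∧
        E (n ^ 2 + 1)} : Set ℕ).ncard : ℝ) := by
  classical
  refine (siftq q I hI k).trans ?_
  obtain ⟨T, hT⟩ : ∃ T, T = (Ioc 0 k).filter (fun n => ∀ p ∈ S1 I, ¬ Dq q p n) := ⟨_, rfl⟩
  rw [← hT]
  obtain ⟨G, hG⟩ : ∃ G : Set ℕ, G = {n : ℕ | n ≤ X ∧ 0 < n ∧ 8 * q ∣ n ∧
    Rough (2 ^ 2 ^ I) (n ^ 2 + 1) ∧ E (n ^ 2 + 1)} := ⟨_, rfl⟩
  rw [← hG]
  have hGf : G.Finite := by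
    rw [hG]
    exact (Set.finite_Iic X).subset fun _ hn => hn.1
  have hmem : ∀ m ∈ T, 0 < q * m ∧ q * m ≤ q * k ∧ Rough (2 ^ 2 ^ I) ((8 * (q * m)) ^ 2 + 1) ∧
      Rough (2 ^ 2 ^ I) ((2 * (8 * (q * m)) ^ 2) ^ 2 + 1) := by
    intro m hm
    rw [hT, mem_filter, mem_Ioc] at hm
    have := rough8 (k := q * m) hm.2
    exact ⟨Nat.mul_pos (by omega) hm.1.1, Nat.mul_le_mul_left q hm.1.2, this.1, this.2⟩
  have hbound : ∀ m : ℕ, 0 < m → m ≤ q * k → 8 * m ≤ X ∧ 2 * (8 * m) ^ 2 ≤ X ∧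
      2 * (8 * m) ^ 3 + 8 * m ≤ X := by
    intro m hm hmk
    have h1 : m ≤ m ^ 3 := Nat.le_self_pow (by norm_num) m
    have h2 : m ^ 2 ≤ m ^ 3 := Nat.pow_le_pow_right hm (by norm_num)
    have h3 : m ^ 3 ≤ (q * k) ^ 3 := Nat.pow_le_pow_left hmk 3
    refine ⟨by omega, ?_, ?_⟩
    · have : 2 * (8 * m) ^ 2 = 128 * m ^ 2 := by ring
      omega
    · have : 2 * (8 * m) ^ 3 + 8 * m = 1024 * m ^ 3 + 8 * m := by ring
      omega
  obtain ⟨T1, hT1⟩ : ∃ T1, T1 = T.filter (fun m => E ((8 * (q * m)) ^ 2 + 1)) := ⟨_, rfl⟩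
  obtain ⟨T2, hT2⟩ : ∃ T2, T2 = T.filter (fun m => E ((2 * (8 * (q * m)) ^ 2) ^ 2 + 1)) :=
    ⟨_, rfl⟩
  obtain ⟨T3, hT3⟩ : ∃ T3, T3 =
      T.filter (fun m => E ((2 * (8 * (q * m)) ^ 3 + 8 * (q * m)) ^ 2 + 1)) := ⟨_, rfl⟩
  have hcover : T ⊆ T1 ∪ (T2 ∪ T3) := by
    intro m hm
    rw [mem_union, mem_union, hT1, hT2, hT3, mem_filter, mem_filter, mem_filter]
    by_cases h1 : E ((8 * (q * m)) ^ 2 + 1)
    · exact Or.inl ⟨hm, h1⟩
    · by_cases h2 : E ((2 * (8 * (q * m)) ^ 2) ^ 2 + 1)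
      · exact Or.inr (Or.inl ⟨hm, h2⟩)
      · refine Or.inr (Or.inr ⟨hm, ?_⟩)
        rw [← ident]
        exact hE _ _ (by positivity) (by positivity) h1 h2
  have hinjq : ∀ a b : ℕ, q * a = q * b → a = b := fun a b h =>
    Nat.eq_of_mul_eq_mul_left (by omega) h
  have c1 : T1.card ≤ G.ncard := by
    rw [← Set.ncard_coe_finset]
    apply Set.ncard_le_ncard_of_injOn (fun m => 8 * (q * m)) _ _ hGf
    · intro m hm
      rw [mem_coe, hT1, mem_filter] at hm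
      obtain ⟨h0, hk, r1, r2⟩ := hmem m hm.1
      rw [hG]
      exact ⟨(hbound _ h0 hk).1, by omega, ⟨m, by ring⟩, r1, hm.2⟩
    · intro a _ b _ hab
      have h1 : 8 * (q * a) = 8 * (q * b) := hab
      exact hinjq a b (by omega)
  have c2 : T2.card ≤ G.ncard := by
    rw [← Set.ncard_coe_finset]
    apply Set.ncard_le_ncard_of_injOn (fun m => 2 * (8 * (q * m)) ^ 2) _ _ hGf
    · intro m hm
      rw [mem_coe, hT2, mem_filter] at hm
      obtain ⟨h0, hk, r1, r2⟩ := hmem m hm.1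
      rw [hG]
      refine ⟨(hbound _ h0 hk).2.1, by positivity, ⟨16 * q * m ^ 2, by ring⟩, r2, hm.2⟩
    · intro a _ b _ hab
      have h0 : 2 * (8 * (q * a)) ^ 2 = 2 * (8 * (q * b)) ^ 2 := hab
      have h1 : (8 * (q * a)) ^ 2 = (8 * (q * b)) ^ 2 := by omega
      have h2 : 8 * (q * a) = 8 * (q * b) := Nat.pow_left_injective (n := 2) (by norm_num) h1
      exact hinjq a b (by omega)
  have c3 : T3.card ≤ G.ncard := by
    rw [← Set.ncard_coe_finset]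
    apply Set.ncard_le_ncard_of_injOn (fun m => 2 * (8 * (q * m)) ^ 3 + 8 * (q * m)) _ _ hGf
    · intro m hm
      rw [mem_coe, hT3, mem_filter] at hm
      obtain ⟨h0, hk, r1, r2⟩ := hmem m hm.1
      rw [hG]
      refine ⟨(hbound _ h0 hk).2.2, by positivity, ⟨128 * q ^ 2 * m ^ 3 + m, by ring⟩, ?_, hm.2⟩
      rw [← ident]
      exact r1.mul r2
    · have hmono : StrictMono (fun m : ℕ => 2 * (8 * (q * m)) ^ 3 + 8 * (q * m)) := by
        intro a b hab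
        have h0 : q * a < q * b := Nat.mul_lt_mul_of_pos_left hab (by omega)
        have h1 : (8 * (q * a)) ^ 3 ≤ (8 * (q * b)) ^ 3 := Nat.pow_le_pow_left (by omega) 3
        show 2 * (8 * (q * a)) ^ 3 + 8 * (q * a) < 2 * (8 * (q * b)) ^ 3 + 8 * (q * b)
        omega
      exact hmono.injective.injOn
  have h1 := (card_le_card hcover).trans ((card_union_le _ _).trans
    (Nat.add_le_add_left (card_union_le _ _) _))
  have h2 : T.card ≤ 3 * G.ncard := by omega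
  exact_mod_cast h2

/-- **Rough values of `n ^ 2 + 1` with a given property.** -/
theorem mainq (q : ℕ) (hq : 1 ≤ q) : ∃ X₀ : ℕ, ∀ E : ℕ → Prop,
    (∀ a b : ℕ, a ≠ 0 → b ≠ 0 → ¬ E a → ¬ E b → E (a * b)) → ∀ X : ℕ, X₀ ≤ X →
      (X : ℝ) ^ ((1 : ℝ) / 3) / Real.log X ^ 140 ≤
        (({n : ℕ | n ≤ X ∧ 0 < n ∧ q ∣ n ∧
          (∀ p : ℕ, p.Prime → p ∣ n ^ 2 + 1 → (X : ℝ) ^ ((1 : ℝ) / 8000) < p) ∧
          E (n ^ 2 + 1)} : Set ℕ).ncard : ℝ) := by
  obtain ⟨B, hB⟩ : ∃ B : ℝ, B = (2 : ℝ) ^ (1300 * 2 ^ 10) := ⟨_, rfl⟩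
  have hqR : (1 : ℝ) ≤ q := by exact_mod_cast hq
  have hq0 : (0 : ℝ) < q := by linarith
  have hev : ∀ᶠ X : ℕ in atTop, B + 1 ≤ (X : ℝ) ^ ((1 : ℝ) / 3) / (11 * q) ∧
      (12 : ℝ) * 11 * q ≤ (X : ℝ) ^ ((1 : ℝ) / 3) ∧
      (12 : ℝ) * q ≤ (X : ℝ) ^ ((1 : ℝ) / 3 - 2600 / 8000) ∧ 2 ≤ X ∧ (q : ℝ) ≤ Real.log X := by
    have e1 := ev_ge (show (0 : ℝ) < 1 / 3 by norm_num) ((B + 1) * (11 * q))
    have e2 := ev_ge (show (0 : ℝ) < 1 / 3 by norm_num) ((12 : ℝ) * 11 * q)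
    have e3 := ev_ge (show (0 : ℝ) < 1 / 3 - 2600 / 8000 by norm_num) ((12 : ℝ) * q)
    have e4 : ∀ᶠ X : ℕ in atTop, (q : ℝ) ≤ Real.log X :=
      (Real.tendsto_log_atTop.comp tendsto_natCast_atTop_atTop).eventually_ge_atTop _
    filter_upwards [e1, e2, e3, eventually_ge_atTop 2, e4] with X h1 h2 h3 h4 h5
    refine ⟨?_, h2, h3, h4, h5⟩
    rw [le_div_iff₀ (by positivity)]
    exact h1
  rw [eventually_atTop] at hev
  obtain ⟨X₀, hX₀⟩ := hev
  refine ⟨X₀, fun E hE X hX => ?_⟩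
  obtain ⟨a1, a2, a3, a4, a5⟩ := hX₀ X hX
  have hX0 : (0 : ℝ) < X := by exact_mod_cast (by omega : 0 < X)
  have hX1 : (1 : ℝ) < X := by exact_mod_cast (by omega : 1 < X)
  obtain ⟨x, hx⟩ : ∃ x : ℝ, x = (X : ℝ) ^ ((1 : ℝ) / 3) := ⟨_, rfl⟩
  rw [← hx] at a1 a2 ⊢
  have hx3 : x ^ 3 = X := by
    rw [hx, ← Real.rpow_natCast, ← Real.rpow_mul hX0.le]
    norm_num
  have hxpos : 0 < x := by rw [hx]; positivity
  obtain ⟨K, hK⟩ : ∃ K : ℕ, K = ⌊x / (11 * q)⌋₊ := ⟨_, rfl⟩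
  have hK1 : (K : ℝ) ≤ x / (11 * q) := by rw [hK]; exact Nat.floor_le (by positivity)
  have hK2 : x / (11 * q) < K + 1 := by rw [hK]; exact Nat.lt_floor_add_one _
  have hK3 : x / (12 * q) ≤ K := by
    have h1 : x / (12 * q) + 1 ≤ x / (11 * q) := by
      rw [div_add_one (by positivity), div_le_div_iff₀ (by positivity) (by positivity)]
      nlinarith
    linarith
  have hqK : (q : ℝ) * K ≤ x / 11 := by
    have h1 := mul_le_mul_of_nonneg_left hK1 hq0.le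
    have h2 : (q : ℝ) * (x / (11 * q)) = x / 11 := by field_simp
    rwa [h2] at h1
  have hKX : 1032 * (q * K) ^ 3 ≤ X := by
    have h1 : ((q : ℝ) * K) ^ 3 ≤ (x / 11) ^ 3 := pow_le_pow_left₀ (by positivity) hqK 3
    have h2 : (1032 : ℝ) * ((q : ℝ) * K) ^ 3 ≤ X := by
      rw [div_pow, hx3] at h1
      norm_num at h1
      linarith
    exact_mod_cast h2
  obtain ⟨I, hI0, hI1, hI2⟩ := exists_levelG 1300 (by norm_num) (x := (K : ℝ)) 10 (by
    rw [← hB]; linarith)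
  have hcount := countq q hq E hE I (by omega) K X hKX
  -- the sieve bound is large
  have hE1 := exp96I I
  have hP := pow_big2 I hI0
  obtain ⟨W, hW⟩ : ∃ W : ℝ, W = (2 : ℝ) ^ (139 * I) := ⟨_, rfl⟩
  rw [← hW] at hE1
  have hWpos : 0 < W := by rw [hW]; positivity
  have hlow : (K : ℝ) / (4 * W) ≤ (K : ℝ) * (Real.exp (-96) ^ I / 2) - (2 : ℝ) ^ (1292 * 2 ^ I) := by
    have h1 : (2 : ℝ) ^ (1292 * 2 ^ I) * (4 * W) ≤ K := by
      refine le_trans ?_ hI1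
      rw [hW, show (4 : ℝ) = 2 ^ 2 by norm_num, ← pow_add, ← pow_add]
      apply pow_le_pow_right₀ (by norm_num)
      omega
    have h2 : (2 : ℝ) ^ (1292 * 2 ^ I) ≤ K / (4 * W) := by
      rw [le_div_iff₀ (by positivity)]
      exact h1
    have h3 : (K : ℝ) / (2 * W) ≤ (K : ℝ) * (Real.exp (-96) ^ I / 2) := by
      rw [div_le_iff₀ (by positivity)]
      have : (K : ℝ) * (Real.exp (-96) ^ I / 2) * (2 * W) = K * (Real.exp (-96) ^ I * W) := by ring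
      rw [this]
      have hK0 : (0 : ℝ) ≤ K := Nat.cast_nonneg _
      nlinarith
    have h4 : (K : ℝ) / (2 * W) = K / (4 * W) + K / (4 * W) := by field_simp; ring
    linarith
  -- sifting limit
  have hz : (X : ℝ) ^ ((1 : ℝ) / 8000) < (2 : ℝ) ^ 2 ^ I := by
    have h1 : ((X : ℝ) ^ ((1 : ℝ) / 8000)) ^ (2600 : ℕ) < ((2 : ℝ) ^ 2 ^ I) ^ (2600 : ℕ) := by
      rw [← Real.rpow_natCast, ← Real.rpow_mul hX0.le, ← pow_mul]
      have e1 : (1 : ℝ) / 8000 * ((2600 : ℕ) : ℝ) = 2600 / 8000 := by push_cast; ring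
      rw [e1, mul_comm (2 ^ I) 2600]
      refine lt_of_le_of_lt ?_ hI2
      refine le_trans ?_ hK3
      rw [le_div_iff₀ (by positivity), hx]
      have h2 : (X : ℝ) ^ ((1 : ℝ) / 3) = (X : ℝ) ^ ((2600 : ℝ) / 8000) *
          (X : ℝ) ^ ((1 : ℝ) / 3 - 2600 / 8000) := by
        rw [← Real.rpow_add hX0]
        congr 1
        ring
      rw [h2]
      exact mul_le_mul_of_nonneg_left a3 (by positivity)
    exact lt_of_pow_lt_pow_left₀ 2600 (by positivity) h1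
  -- comparison with powers of the logarithm
  have hlog : 0 < Real.log X := Real.log_pos hX1
  have hKX' : (K : ℝ) ≤ X := by
    have h1 : x ≤ x ^ 3 := le_self_pow₀ (by nlinarith) (by norm_num)
    rw [hx3] at h1
    have h2 : (K : ℝ) ≤ q * K := by
      have hK0 : (0 : ℝ) ≤ K := Nat.cast_nonneg _
      nlinarith
    linarith
  have hI3 : (2 : ℝ) ^ I * 2 ≤ Real.log X := by
    have h1 : Real.log ((2 : ℝ) ^ (1300 * 2 ^ I)) ≤ Real.log X :=
      Real.log_le_log (by positivity) (hI1.trans hKX')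
    rw [Real.log_pow] at h1
    push_cast at h1
    have h2 := Real.log_two_gt_d9
    have h3 : (0 : ℝ) < 2 ^ I := by positivity
    nlinarith
  have hI4 : W * 144 ≤ Real.log X ^ 139 := by
    calc W * 144 ≤ W * 2 ^ 139 := mul_le_mul_of_nonneg_left (by norm_num) hWpos.le
      _ = ((2 : ℝ) ^ I * 2) ^ 139 := by rw [mul_pow, hW, ← pow_mul, mul_comm 139 I]
      _ ≤ Real.log X ^ 139 := pow_le_pow_left₀ (by positivity) hI3 139
  have hI5 : W * 144 * q ≤ Real.log X ^ 140 := by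
    rw [pow_succ]
    exact mul_le_mul hI4 a5 hq0.le (by positivity)
  have hfin : x / Real.log X ^ 140 ≤ (K : ℝ) / (4 * W) / 3 := by
    rw [div_div, div_le_div_iff₀ (by positivity) (by positivity)]
    have h0 : x ≤ K * (12 * q) := by
      rwa [div_le_iff₀ (by positivity)] at hK3
    have h1 : x * (4 * W * 3) ≤ (K * (12 * q)) * (4 * W * 3) :=
      mul_le_mul_of_nonneg_right h0 (by positivity)
    have h2 : (K * (12 * (q : ℝ))) * (4 * W * 3) = K * (W * 144 * q) := by ring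
    rw [h2] at h1
    exact h1.trans (mul_le_mul_of_nonneg_left hI5 (Nat.cast_nonneg _))
  refine hfin.trans ?_
  rw [div_le_iff₀ (by norm_num)]
  refine (hlow.trans hcount).trans ?_
  rw [mul_comm]
  apply mul_le_mul_of_nonneg_right _ (by norm_num)
  have hsub : ({n : ℕ | n ≤ X ∧ 0 < n ∧ 8 * q ∣ n ∧ Rough (2 ^ 2 ^ I) (n ^ 2 + 1) ∧
      E (n ^ 2 + 1)} : Set ℕ) ⊆ {n : ℕ | n ≤ X ∧ 0 < n ∧ q ∣ n ∧
          (∀ p : ℕ, p.Prime → p ∣ n ^ 2 + 1 → (X : ℝ) ^ ((1 : ℝ) / 8000) < p) ∧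
          E (n ^ 2 + 1)} := by
    rintro n ⟨h1, h2, h3, h4, h5⟩
    refine ⟨h1, h2, (Nat.dvd_mul_left q 8).trans h3, fun p hp hd => hz.trans ?_, h5⟩
    exact_mod_cast h4 p hp hd
  exact_mod_cast Set.ncard_le_ncard hsub ((Set.finite_Iic X).subset fun _ hn => hn.1)

end Pool.Agent.U803.ER
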